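import Pool.Agent.Helper81.LN.Upper

set_option autoImplicit false

/-! # Diameters of spaces of Lipschitz maps from hyperbolic balls

Let `S` be a compact path connected Lipschitz neighbourhood retract, `n = m + 1 ≥ 1` and
`D(R) = diam_c (Lip_1 (B_H^n(R) → S))`. For every `c ≥ 1`, in particular for `c = 1`: if the
fundamental group of `S` is finite, then `D(R)` is bounded (uniformly in `c`), and if it is infinite,
then `δ R - A ≤ D(R) ≤ 2 R + A` with constants `δ > 0` and `A` which depend only on `S`. -/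

namespace Pool.Agent.Results.MP_e25190_gt.Growth

open scoped NNReal ENNReal
open Pool.Agent.H261R3.LH (IsLNR)
open Pool.Agent.H261R3.LN

theorem result (S : Type) [MetricSpace S] [CompactSpace S] [PathConnectedSpace S]
    (hS : IsLNR S) (p : S) :
    (Finite (Path.Homotopic.Quotient p p) →
      ∀ m : ℕ, ∃ D : ℝ≥0, ∀ c : ℝ≥0, 1 ≤ c → ∀ R : ℝ, 0 < R → hypDiam m S c R ≤ D) ∧
    (Infinite (Path.Homotopic.Quotient p p) →
      ∃ δ A : ℝ, 0 < δ ∧ ∀ (m : ℕ) (c : ℝ≥0), 1 ≤ c → ∀ R : ℝ, 0 < R →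
        ENNReal.ofReal (δ * R - A) ≤ hypDiam m S c R ∧
          hypDiam m S c R ≤ ENNReal.ofReal (2 * R + A)) := by
  refine ⟨fun h m => Pool.Agent.Helper81.LN.bounded_allC m S hS p h, fun h => ?_⟩
  obtain ⟨δ, A, hδ, h1⟩ := linear_all S hS p h
  obtain ⟨A', hA', h2⟩ := Pool.Agent.Helper81.LN.upper_lin S hS p
  refine ⟨δ, max A A', hδ, fun m c hc R hR => ⟨?_, ?_⟩⟩
  · refine le_trans (ENNReal.ofReal_le_ofReal ?_) (h1 m c hc R hR)
    linarith [le_max_left A A']
  · refine (h2 m c hc R hR).trans (ENNReal.ofReal_le_ofReal ?_)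
    linarith [le_max_right A A']

end Pool.Agent.Results.MP_e25190_gt.Growth
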